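import Mathlib

/-!
# Arithmetic
-/

namespace Pool.Agent.W897.MA

theorem arith1 {t N A lg D : ℕ} (ht : 1 ≤ t) (hN : 1 ≤ N) (hn : t * N < 2 ^ lg) (hD1 : 1 ≤ D)
    (H : ∀ j L, 8 * j ≤ t * N → (t * N + 1) * 2 ^ (A + 16 * j ^ 2 / (t * N) + 1) < 2 ^ L →
      t * (N - N / 2) ≤ (t * N / 2 - j) + L * D) :
    t * N ≤ 144 * (A + lg + 2) * D ^ 2 := by
  set n' := t * N with hn'
  set K := A + lg + 2 with hK
  have hn1 : 1 ≤ n' := Nat.mul_pos ht hN
  have hK1 : 1 ≤ K := by omega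
  set r := Nat.sqrt (K * n') with hr
  have hr1 : r * r ≤ K * n' := Nat.sqrt_le _
  have hr2 : K * n' < (r + 1) * (r + 1) := Nat.lt_succ_sqrt _
  set j := r / 4 with hj
  have hj4 : 4 * j ≤ r := Nat.mul_div_le r 4
  have hj5 : r < 4 * j + 4 := by omega
  rcases Nat.lt_or_ge n' (8 * j) with hA | hB
  · -- n' < 2 r
    have h1 : n' < 2 * r := by omega
    have h2 : n' * n' < 4 * K * n' := by
      calc n' * n' < (2 * r) * (2 * r) := Nat.mul_lt_mul'' h1 h1
        _ = 4 * (r * r) := by ring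
        _ ≤ 4 * (K * n') := by gcongr
        _ = _ := by ring
    have h3 : n' < 4 * K := Nat.lt_of_mul_lt_mul_right h2
    calc n' ≤ 4 * K * 1 := by omega
      _ ≤ 144 * K * D ^ 2 := by
        apply Nat.mul_le_mul
        · omega
        · exact Nat.one_le_pow _ _ hD1
  · -- main case
    have h16 : 16 * j ^ 2 ≤ K * n' := by
      calc 16 * j ^ 2 = (4 * j) * (4 * j) := by ring
        _ ≤ r * r := by gcongr
        _ ≤ _ := hr1
    have hdiv : 16 * j ^ 2 / n' ≤ K := by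
      apply Nat.div_le_of_le_mul
      rw [mul_comm n' K]
      exact h16
    set a := A + 16 * j ^ 2 / n' + 1 with ha
    have hcond : (n' + 1) * 2 ^ a < 2 ^ (a + lg + 1) := by
      have h1 : n' + 1 ≤ 2 ^ lg := by omega
      calc (n' + 1) * 2 ^ a ≤ 2 ^ lg * 2 ^ a := by gcongr
        _ = 2 ^ (a + lg) := by rw [← pow_add, add_comm]
        _ < 2 ^ (a + lg + 1) := Nat.pow_lt_pow_right (by norm_num) (by omega)
    have h2 := H j (a + lg + 1) hB hcond
    have h3 : n' ≤ 2 * (t * (N - N / 2)) := by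
      rw [hn']
      have : N ≤ 2 * (N - N / 2) := by omega
      calc t * N ≤ t * (2 * (N - N / 2)) := by gcongr
        _ = _ := by ring
    have hL : a + lg + 1 ≤ 2 * K := by omega
    have h4 : j ≤ 2 * K * D := by
      have h5 : (a + lg + 1) * D ≤ 2 * K * D := by gcongr
      have h6 : j ≤ (a + lg + 1) * D := by omega
      omega
    have h7 : r + 1 ≤ 12 * (K * D) := by
      have : 1 ≤ K * D := Nat.mul_pos hK1 hD1
      have h8 : 2 * K * D = 2 * (K * D) := by ring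
      omega
    have h9 : K * n' < K * (144 * K * D ^ 2) := by
      calc K * n' < (r + 1) * (r + 1) := hr2
        _ ≤ (12 * (K * D)) * (12 * (K * D)) := by gcongr
        _ = _ := by ring
    exact (Nat.lt_of_mul_lt_mul_left h9).le

/-- the choice of the parameters -/
theorem arith2 (p h k q : ℕ) (hp : 2 ≤ p) (hk : 1 ≤ k) (hq : 2 ≤ q) (hq' : q ≤ 3) :
    ∃ C : ℕ, ∀ n s G : ℕ,
      (∀ D ℓ μ N : ℕ, D = 36 * ((p - 1) * (ℓ * (p - 1)) ^ (h + 1)) → 1 ≤ ℓ →
        16 * (s + 1) ≤ p ^ ℓ → 1 ≤ μ → q - 1 ≤ N → (2 * μ + 1) * ((N + 1) * q + k) ≤ n →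
        ∀ j L, 8 * j ≤ μ ^ k * N →
          (μ ^ k * N + 1) * 2 ^ (((q - 1) * μ ^ k + G) + 16 * j ^ 2 / (μ ^ k * N) + 1) < 2 ^ L →
          μ ^ k * (N - N / 2) ≤ (μ ^ k * N / 2 - j) + L * D) →
      n ^ k ≤ C * (G + 1) * (Nat.log 2 (s + n) + 1) ^ ((2 * h + 2) * k + 1) := by
  set E : ℕ := 36 * p * ((k + 4) * p) ^ (h + 1) with hE
  set F : ℕ := 3 * (576 * E ^ 2 + 1) + k with hF
  refine ⟨(5 * F) ^ k * (k + 3), ?_⟩
  intro n s G H
  set lgs := Nat.log 2 (s + n) + 1 with hlgs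
  set lg := k * lgs with hlg
  have hlgs1 : 1 ≤ lgs := by omega
  have hsn : s + n < 2 ^ lgs := Nat.lt_pow_succ_log_self (by norm_num) _
  have hsnk : (s + n) ^ k < 2 ^ lg := by
    rw [hlg, mul_comm, pow_mul]
    exact Nat.pow_lt_pow_left hsn (by omega)
  set ℓ := lg + 4 with hℓ
  set D := 36 * ((p - 1) * (ℓ * (p - 1)) ^ (h + 1)) with hD
  have hD1 : 1 ≤ D := by
    have h1 : 0 < (p - 1) * (ℓ * (p - 1)) ^ (h + 1) := by
      apply Nat.mul_pos
      · omega
      · apply Nat.pow_pos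
        apply Nat.mul_pos <;> omega
    omega
  set N := 576 * D ^ 2 with hN
  have hN2 : 576 ≤ N := by
    have : 1 ≤ D ^ 2 := Nat.one_le_pow _ _ hD1
    omega
  set W := (N + 1) * q + k with hW
  have hWpos : 0 < W := by omega
  -- the main bound
  have hmain : n ^ k ≤ (5 * W) ^ k * (G + lg + 2) := by
    rcases Nat.lt_or_ge n (3 * W) with hn | hn
    · calc n ^ k ≤ (5 * W) ^ k := Nat.pow_le_pow_left (by omega) _
        _ ≤ _ := Nat.le_mul_of_pos_right _ (by omega)
    · set μ := (n / W - 1) / 2 with hμ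
      have hnW : 3 ≤ n / W := (Nat.le_div_iff_mul_le hWpos).2 hn
      have hμ1 : 1 ≤ μ := by omega
      have hμ2 : 2 * μ + 1 ≤ n / W := by omega
      have hμ3 : n / W ≤ 2 * μ + 2 := by omega
      have hμW : (2 * μ + 1) * W ≤ n :=
        (Nat.mul_le_mul_right W hμ2).trans (Nat.div_mul_le_self n W)
      have hn5 : n ≤ 5 * W * μ := by
        have h1 : n < (n / W + 1) * W := by
          have := Nat.lt_succ_self (n / W)
          exact (Nat.div_lt_iff_lt_mul hWpos).1 this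
        have h2 : (n / W + 1) * W ≤ (5 * μ) * W := Nat.mul_le_mul_right W (by omega)
        calc n ≤ (5 * μ) * W := by omega
          _ = _ := by ring
      set t := μ ^ k with ht
      have ht1 : 1 ≤ t := Nat.one_le_pow _ _ hμ1
      have hμN : μ * N ≤ n := by
        refine le_trans (Nat.mul_le_mul (show μ ≤ 2 * μ + 1 by omega) (show N ≤ W from ?_)) hμW
        have : (N + 1) * 1 ≤ (N + 1) * q := Nat.mul_le_mul_left _ (by omega)
        omega
      have htN : t * N < 2 ^ lg := by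
        calc t * N ≤ μ ^ k * N ^ k :=
              Nat.mul_le_mul_left _ (Nat.le_self_pow (by omega) N)
          _ = (μ * N) ^ k := (mul_pow _ _ _).symm
          _ ≤ (s + n) ^ k := Nat.pow_le_pow_left (by omega) _
          _ < _ := hsnk
      have h16 : 16 * (s + 1) ≤ p ^ ℓ := by
        have h1 : s + 1 ≤ 2 ^ lg := by
          have h2 : 2 ^ lgs ≤ 2 ^ lg := Nat.pow_le_pow_right (by norm_num)
            (Nat.le_mul_of_pos_left _ (by omega))
          omega
        calc 16 * (s + 1) ≤ 16 * 2 ^ lg := by gcongr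
          _ = 2 ^ (lg + 4) := by ring
          _ ≤ p ^ (lg + 4) := Nat.pow_le_pow_left hp _
      have h1 := arith1 ht1 (by omega : 1 ≤ N) htN hD1
        (H D ℓ μ N rfl (by omega) h16 hμ1 (by omega) hμW)
      have h2 : t * (576 * D ^ 2) ≤ 144 * ((q - 1) * t + G + lg + 2) * D ^ 2 := h1
      have h3 : D ^ 2 * (4 * t) ≤ D ^ 2 * ((q - 1) * t + G + lg + 2) := by
        have h4 : 144 * (D ^ 2 * (4 * t)) ≤ 144 * (D ^ 2 * ((q - 1) * t + G + lg + 2)) := by
          calc 144 * (D ^ 2 * (4 * t)) = t * (576 * D ^ 2) := by ring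
            _ ≤ _ := h2
            _ = _ := by ring
        omega
      have h4 : 4 * t ≤ (q - 1) * t + G + lg + 2 :=
        Nat.le_of_mul_le_mul_left h3 (Nat.pow_pos hD1)
      have h5 : (q - 1) * t ≤ 2 * t := Nat.mul_le_mul_right _ (by omega)
      have h6 : t ≤ G + lg + 2 := by omega
      calc n ^ k ≤ (5 * W * μ) ^ k := Nat.pow_le_pow_left hn5 _
        _ = (5 * W) ^ k * t := by rw [mul_pow]
        _ ≤ _ := Nat.mul_le_mul_left _ h6
  -- the estimates
  have hDE : D ≤ E * lgs ^ (h + 1) := by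
    have h1 : ℓ ≤ (k + 4) * lgs := by
      rw [hℓ, hlg]
      nlinarith
    calc D ≤ 36 * (p * (((k + 4) * lgs) * p) ^ (h + 1)) := by
          rw [hD]
          gcongr
          · omega
          · omega
      _ = _ := by
          rw [hE, show ((k + 4) * lgs) * p = ((k + 4) * p) * lgs by ring, mul_pow _ lgs]
          ring
  have hWF : W ≤ F * lgs ^ (2 * h + 2) := by
    have h1 : 1 ≤ lgs ^ (2 * h + 2) := Nat.one_le_pow _ _ hlgs1
    have h2 : D ^ 2 ≤ E ^ 2 * lgs ^ (2 * h + 2) := by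
      calc D ^ 2 ≤ (E * lgs ^ (h + 1)) ^ 2 := Nat.pow_le_pow_left hDE _
        _ = _ := by rw [mul_pow, ← pow_mul]; congr 2; ring
    calc W ≤ (N + 1) * 3 + k := by
          rw [hW]
          gcongr
      _ ≤ (576 * (E ^ 2 * lgs ^ (2 * h + 2)) + 1 * lgs ^ (2 * h + 2)) * 3 + k * lgs ^ (2 * h + 2) := by
          rw [hN]
          gcongr
          · omega
          · exact Nat.le_mul_of_pos_right _ h1
      _ = _ := by rw [hF]; ring
  have h1 : G + lg + 2 ≤ (k + 3) * ((G + 1) * lgs) := by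
    have h2 : G + 1 ≤ (G + 1) * lgs := Nat.le_mul_of_pos_right _ hlgs1
    have h3 : lgs ≤ (G + 1) * lgs := Nat.le_mul_of_pos_left _ (by omega)
    have h4 : k * lgs ≤ k * ((G + 1) * lgs) := Nat.mul_le_mul_left _ h3
    have h5 : (k + 3) * ((G + 1) * lgs) = k * ((G + 1) * lgs) + 3 * ((G + 1) * lgs) := by ring
    omega
  calc n ^ k ≤ (5 * W) ^ k * (G + lg + 2) := hmain
    _ ≤ (5 * (F * lgs ^ (2 * h + 2))) ^ k * ((k + 3) * ((G + 1) * lgs)) := by gcongr
    _ = (5 * F) ^ k * (k + 3) * (G + 1) * lgs ^ ((2 * h + 2) * k + 1) := by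
        rw [show 5 * (F * lgs ^ (2 * h + 2)) = (5 * F) * lgs ^ (2 * h + 2) by ring, mul_pow (5 * F),
          ← pow_mul, pow_succ]
        ring

end Pool.Agent.W897.MA
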