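import Pool.Agent.H820R3.AC.Main

/-!
# Formulas in conjunctive normal form, given by the table of their clauses
-/

namespace Pool.Agent.W897.MA

open H746R3.Inv

/-- A clause with `k` literals over `n` variables. The literal `(v, b)` says that the variable `v`
has the value `b`. -/
abbrev Clause (k n : ℕ) := Fin k → Fin n × Bool

/-- A `k`-CNF formula over `n` variables, given by the table of its clauses: `φ c = true` says
that `c` is a clause of the formula. -/
abbrev Formula (k n : ℕ) := Clause k n → Bool

/-- Some assignment satisfies a literal of every clause of the formula. -/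
def Satisfiable {k n : ℕ} (φ : Formula k n) : Prop :=
  ∃ α : Fin n → Bool, ∀ c, φ c = true → ∃ i, α (c i).1 = (c i).2

/-- The circuit outputs `true` on the input `x`. -/
def Accepts {I : Type} (p : ℕ) (C : Circuit I Unit) (x : I → Bool) : Prop :=
  C.Computes p x fun _ => true

/-- The circuit has depth at most `h` and at most `s` gates, all of them AND, OR or MOD-p gates. -/
def SmallCircuit {I : Type} (h s : ℕ) (C : Circuit I Unit) : Prop :=
  C.DepthLE h ∧ (∀ g, ¬ (C.kind g).IsWild) ∧ C.G ≤ s

end Pool.Agent.W897.MA
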