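import Pool.Agent.W897.MA.Defs

/-!
# Two-sided error: amplification and the core of the lower bound
-/

namespace Pool.Agent.W897.MA

open H746R3.Inv Finset Pool.Agent.H820R3.AC

/-- the core of the lower bound: the function `P` is nonzero on most of `S`, and nearly all points
at which it is nonzero have vanishing blocks -/
theorem core {K : Type*} [Field K] {t N Δ r : ℕ} (ζ : K) (h0 : ζ ≠ 0) (h1 : ζ ≠ 1)
    (S E : Finset (Fin t × Fin N → Bool)) (P : (Fin t × Fin N → Bool) → K)
    (hP : P ∈ LD K (Fin t × Fin N) Δ) (hPS : ∀ y ∈ S, y ∉ E → P y ≠ 0)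
    (hPE : ∀ y ∉ E, P y ≠ 0 → ∀ i, ∏ j, zz ζ (y (i, j)) = 1)
    (hcard : E.card * 2 ^ (t * N) < S.card * ball (t * N) r) : t * (N - N / 2) ≤ r + Δ := by
  classical
  have hcV : Fintype.card (Fin t × Fin N) = t * N := by simp
  obtain ⟨v, hv⟩ := T2b S r
  rw [hcV] at hv
  set S' := S.filter fun y => (univ.filter fun i => y i ≠ v i).card ≤ r with hS'
  have hlt : E.card < S'.card := by
    have h2 := hcard.trans_le hv
    rw [mul_comm] at h2
    exact Nat.lt_of_mul_lt_mul_left h2
  obtain ⟨R, hR, hRE, y0, hy0, hRy0⟩ := T2c (K := K) r S' E hlt (fun g => by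
    obtain ⟨R, hR, hRg⟩ := T2a (K := K) v r g
    exact ⟨R, hR, fun y hy => hRg y (Finset.mem_filter.1 hy).2⟩)
  have hy0S : y0 ∈ S := (Finset.mem_filter.1 hy0).1
  have hy0E : y0 ∉ E := fun h => hRy0 (hRE y0 h)
  refine T1 ζ h0 h1 (R * P) (mul_mem hR hP) ⟨y0, ?_⟩ ?_
  · rw [Pi.mul_apply]
    exact mul_ne_zero hRy0 (hPS y0 hy0S hy0E)
  · intro y hy
    rw [Pi.mul_apply] at hy
    have hyE : y ∉ E := by
      intro h
      apply hy
      rw [hRE y h, zero_mul]
    exact hPE y hyE (right_ne_zero_of_mul hy)

/-- a majority vote of many copies with error `2 / 5` -/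
theorem vote {Ω : Type*} [Fintype Ω] [DecidableEq Ω] (L : ℕ) (B : Finset Ω)
    (hB : 5 * B.card ≤ 2 * Fintype.card Ω) :
    (univ.filter fun ω : Fin (36 * L) → Ω =>
      36 * L ≤ 2 * (univ.filter fun i => ω i ∈ B).card).card * 2 ^ L ≤
      Fintype.card Ω ^ (36 * L) := by
  set q := Fintype.card Ω with hq
  set b := B.card with hb
  have hbq : b ≤ q := Finset.card_le_univ B
  set G : Finset (Fin (36 * L)) → Finset (Fin (36 * L) → Ω) := fun T =>
    Fintype.piFinset fun i => if i ∈ T then B else Bᶜ with hG
  have hGc : ∀ T : Finset (Fin (36 * L)), (G T).card = b ^ T.card * (q - b) ^ (36 * L - T.card) := by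
    intro T
    simp only [hG]
    rw [Fintype.card_piFinset]
    have h1 : ∀ i : Fin (36 * L), (if i ∈ T then B else Bᶜ).card =
        if i ∈ T then b else q - b := by
      intro i
      split_ifs
      · rfl
      · rw [Finset.card_compl]
    simp only [h1]
    rw [Finset.prod_ite]
    simp only [Finset.prod_const]
    congr 2
    · congr 1
      ext i
      simp
    · have h2 : (univ.filter fun i : Fin (36 * L) => i ∉ T) = Tᶜ := by
        ext i; simp
      rw [h2, Finset.card_compl, Fintype.card_fin]
  have hsub : (univ.filter fun ω : Fin (36 * L) → Ω =>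
      36 * L ≤ 2 * (univ.filter fun i => ω i ∈ B).card) ⊆
      (univ.filter fun T : Finset (Fin (36 * L)) => 36 * L ≤ 2 * T.card).biUnion G := by
    intro ω hω
    rw [Finset.mem_filter] at hω
    rw [Finset.mem_biUnion]
    refine ⟨univ.filter fun i => ω i ∈ B, Finset.mem_filter.2 ⟨Finset.mem_univ _, hω.2⟩, ?_⟩
    simp only [hG]
    rw [Fintype.mem_piFinset]
    intro i
    by_cases hi : ω i ∈ B
    · have h1 : i ∈ univ.filter fun i => ω i ∈ B := Finset.mem_filter.2 ⟨Finset.mem_univ _, hi⟩
      rw [if_pos h1]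
      exact hi
    · have h1 : i ∉ univ.filter fun i => ω i ∈ B := fun h => hi (Finset.mem_filter.1 h).2
      rw [if_neg h1]
      exact Finset.mem_compl.2 hi
  have hT : ∀ T ∈ (univ.filter fun T : Finset (Fin (36 * L)) => 36 * L ≤ 2 * T.card),
      (G T).card ≤ (b * (q - b)) ^ (18 * L) := by
    intro T hT
    have hT2 := (Finset.mem_filter.1 hT).2
    have hTL : T.card ≤ 36 * L := by
      simpa using Finset.card_le_univ T
    rw [hGc]
    obtain ⟨x, hx⟩ := Nat.exists_eq_add_of_le (show 18 * L ≤ T.card by omega)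
    have hbb : b ≤ q - b := by omega
    calc b ^ T.card * (q - b) ^ (36 * L - T.card)
        = b ^ (18 * L) * b ^ x * (q - b) ^ (36 * L - T.card) := by rw [hx, pow_add]
      _ ≤ b ^ (18 * L) * (q - b) ^ x * (q - b) ^ (36 * L - T.card) := by gcongr
      _ = b ^ (18 * L) * (q - b) ^ (18 * L) := by
          rw [mul_assoc, ← pow_add]
          congr 2
          omega
      _ = _ := by rw [mul_pow]
  have h25 : 25 * (b * (q - b)) ≤ 6 * (q * q) := by
    obtain ⟨c, hc⟩ := Nat.exists_eq_add_of_le hbq
    have : q - b = c := by omega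
    rw [this, hc]
    have h3 : 3 * b ≤ 2 * c := by omega
    nlinarith [mul_nonneg (sub_nonneg.2 (show (3 * b : ℤ) ≤ 2 * c by exact_mod_cast h3))
      (sub_nonneg.2 (show (2 * b : ℤ) ≤ 3 * c by exact_mod_cast (show 2 * b ≤ 3 * c by omega)))]
  set X := (univ.filter fun ω : Fin (36 * L) → Ω =>
      36 * L ≤ 2 * (univ.filter fun i => ω i ∈ B).card).card with hX
  have h1 : X ≤ 2 ^ (36 * L) * (b * (q - b)) ^ (18 * L) := by
    calc X ≤ ((univ.filter fun T : Finset (Fin (36 * L)) => 36 * L ≤ 2 * T.card).biUnion G).card :=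
          Finset.card_le_card hsub
      _ ≤ ∑ T ∈ (univ.filter fun T : Finset (Fin (36 * L)) => 36 * L ≤ 2 * T.card), (G T).card :=
          Finset.card_biUnion_le
      _ ≤ ∑ T ∈ (univ.filter fun T : Finset (Fin (36 * L)) => 36 * L ≤ 2 * T.card),
          (b * (q - b)) ^ (18 * L) := Finset.sum_le_sum hT
      _ ≤ ∑ _T : Finset (Fin (36 * L)), (b * (q - b)) ^ (18 * L) :=
          Finset.sum_le_sum_of_subset (Finset.filter_subset _ _)
      _ = _ := by
          rw [Finset.sum_const, Finset.card_univ, Fintype.card_finset, Fintype.card_fin,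
            smul_eq_mul]
  have h2 : X * 25 ^ (18 * L) ≤ 24 ^ (18 * L) * q ^ (36 * L) := by
    calc X * 25 ^ (18 * L) ≤ 2 ^ (36 * L) * (b * (q - b)) ^ (18 * L) * 25 ^ (18 * L) := by gcongr
      _ = 2 ^ (36 * L) * (25 * (b * (q - b))) ^ (18 * L) := by rw [mul_pow 25]; ring
      _ ≤ 2 ^ (36 * L) * (6 * (q * q)) ^ (18 * L) := by gcongr
      _ = _ := by
          have e1 : (2 : ℕ) ^ (36 * L) = 4 ^ (18 * L) := by
            rw [show 36 * L = 2 * (18 * L) by ring, pow_mul]; norm_num
          have e2 : q ^ (36 * L) = (q * q) ^ (18 * L) := by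
            rw [show 36 * L = 2 * (18 * L) by ring, pow_mul, pow_two]
          rw [e1, e2, ← mul_pow, ← mul_pow]
          congr 1
          ring
  have h3 : (2 : ℕ) ^ L * 24 ^ (18 * L) ≤ 25 ^ (18 * L) := by
    rw [pow_mul 24, pow_mul 25, ← mul_pow]
    exact Nat.pow_le_pow_left (by norm_num) L
  have h4 : (24 : ℕ) ^ (18 * L) * (X * 2 ^ L) ≤ 24 ^ (18 * L) * q ^ (36 * L) := by
    calc (24 : ℕ) ^ (18 * L) * (X * 2 ^ L) = X * (2 ^ L * 24 ^ (18 * L)) := by ring
      _ ≤ X * 25 ^ (18 * L) := by gcongr
      _ ≤ _ := h2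
  exact Nat.le_of_mul_le_mul_left h4 (by positivity)

/-- the preimage of a set under a coordinate -/
theorem card_coord' {ι : Type*} [Fintype ι] [DecidableEq ι] (Ω : ι → Type*) [∀ i, Fintype (Ω i)]
    [∀ i, DecidableEq (Ω i)] (i : ι) (X : Finset (Ω i)) :
    (univ.filter fun ω : (∀ j, Ω j) => ω i ∈ X).card * Fintype.card (Ω i) =
      X.card * Fintype.card (∀ j, Ω j) := by
  classical
  have h1 : (univ.filter fun ω : (∀ j, Ω j) => ω i ∈ X) =
      Fintype.piFinset (Function.update (fun j => (univ : Finset (Ω j))) i X) := by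
    ext ω
    simp only [Finset.mem_filter, Finset.mem_univ, true_and, Fintype.mem_piFinset]
    constructor
    · intro h j
      by_cases hj : j = i
      · subst hj
        rw [Function.update_self]
        exact h
      · rw [Function.update_of_ne hj]
        exact Finset.mem_univ _
    · intro h
      have := h i
      rwa [Function.update_self] at this
  rw [h1, Fintype.card_piFinset, Fintype.card_pi,
    ← Finset.mul_prod_erase univ _ (Finset.mem_univ i),
    ← Finset.mul_prod_erase univ (fun j => Fintype.card (Ω j)) (Finset.mem_univ i),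
    Function.update_self]
  have h2 : ∏ j ∈ univ.erase i,
      (Function.update (fun j => (univ : Finset (Ω j))) i X j).card =
      ∏ j ∈ univ.erase i, Fintype.card (Ω j) := by
    refine Finset.prod_congr rfl fun j hj => ?_
    rw [Function.update_of_ne (Finset.ne_of_mem_erase hj), Finset.card_univ]
  rw [h2]
  ring

open Classical in
/-- a random function with two-sided error `1 / 3`, all of whose values have probabilistic
polynomials, agrees with a function of low degree outside of a small set -/
theorem amplify {p : ℕ} [Fact p.Prime] {V : Type} [Fintype V] {D ℓ e : ℕ}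
    {Ω : Type} [Fintype Ω] [Nonempty Ω] (f : Ω → (V → Bool) → Bool)
    (hf : ∀ ω, PP p D ℓ e (f ω)) (he : 16 * e ≤ p ^ ℓ) (L : ℕ) :
    ∃ P ∈ LD (ZMod p) V (36 * L * ((p - 1) * D)), ∃ E : Finset (V → Bool),
      E.card * 2 ^ L ≤ 2 ^ Fintype.card V ∧
      (∀ y ∉ E, 2 * Fintype.card Ω ≤ 3 * (univ.filter fun ω => f ω y = true).card → P y = 1) ∧
      (∀ y ∉ E, 3 * (univ.filter fun ω => f ω y = true).card ≤ Fintype.card Ω → P y = 0) := by
  choose Ω' hΩ' P hΩ0 hP hPy using hf
  have hp : 1 < p := (Fact.out : p.Prime).one_lt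
  have hpl : 0 < p ^ ℓ := Nat.pow_pos (by omega)
  have hΩpos : 0 < Fintype.card Ω := Fintype.card_pos
  set Ω₂ := Ω × (∀ ω, Ω' ω) with hΩ₂
  set b : Ω₂ → (V → Bool) → Bool := fun x y => decide (P x.1 (x.2 x.1) y ≠ 0) with hb
  have hbm : ∀ x, (fun y => (bK (b x y) : ZMod p)) ∈ LD (ZMod p) V ((p - 1) * D) := by
    intro x
    have h1 : (fun y => (bK (b x y) : ZMod p)) = P x.1 (x.2 x.1) ^ (p - 1) := by
      funext y
      rw [Pi.pow_apply]
      by_cases h : P x.1 (x.2 x.1) y = 0
      · rw [h, zero_pow (by omega)]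
        simp [hb, h]
      · rw [ZMod.pow_card_sub_one_eq_one h]
        simp [hb, h]
    rw [h1]
    exact pow_mem' (hP _ _) _
  -- the copies that are wrong at `y`
  set W : (V → Bool) → Finset Ω₂ := fun y =>
    univ.filter fun x => P x.1 (x.2 x.1) y ≠ bK (f x.1 y) with hW
  have hWc : ∀ y, 16 * (W y).card ≤ Fintype.card Ω₂ := by
    intro y
    have h1 : ∀ ω, 16 * (univ.filter fun ρ : (∀ ω, Ω' ω) => P ω (ρ ω) y ≠ bK (f ω y)).card ≤
        Fintype.card (∀ ω, Ω' ω) := by
      intro ω
      have h2 := card_coord' Ω' ω (univ.filter fun a => P ω a y ≠ bK (f ω y))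
      have h3 := hPy ω y
      have h4 : 16 * (univ.filter fun a => P ω a y ≠ bK (f ω y)).card ≤ Fintype.card (Ω' ω) := by
        have h5 : 16 * (univ.filter fun a => P ω a y ≠ bK (f ω y)).card * p ^ ℓ ≤
            Fintype.card (Ω' ω) * p ^ ℓ := by
          calc 16 * (univ.filter fun a => P ω a y ≠ bK (f ω y)).card * p ^ ℓ
              = 16 * ((univ.filter fun a => P ω a y ≠ bK (f ω y)).card * p ^ ℓ) := by ring
            _ ≤ 16 * (e * Fintype.card (Ω' ω)) := Nat.mul_le_mul_left _ h3
            _ = (16 * e) * Fintype.card (Ω' ω) := by ring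
            _ ≤ p ^ ℓ * Fintype.card (Ω' ω) := Nat.mul_le_mul_right _ he
            _ = _ := by ring
        exact Nat.le_of_mul_le_mul_right h5 hpl
      have h6 : (univ.filter fun ρ : (∀ ω, Ω' ω) =>
          ρ ω ∈ univ.filter fun a => P ω a y ≠ bK (f ω y)) =
          univ.filter fun ρ : (∀ ω, Ω' ω) => P ω (ρ ω) y ≠ bK (f ω y) := by
        ext ρ
        simp
      rw [h6] at h2
      have h7 : 16 * (univ.filter fun ρ : (∀ ω, Ω' ω) => P ω (ρ ω) y ≠ bK (f ω y)).card *
          Fintype.card (Ω' ω) ≤ Fintype.card (∀ ω, Ω' ω) * Fintype.card (Ω' ω) := by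
        calc 16 * (univ.filter fun ρ : (∀ ω, Ω' ω) => P ω (ρ ω) y ≠ bK (f ω y)).card *
            Fintype.card (Ω' ω)
            = 16 * ((univ.filter fun ρ : (∀ ω, Ω' ω) => P ω (ρ ω) y ≠ bK (f ω y)).card *
              Fintype.card (Ω' ω)) := by ring
          _ = 16 * ((univ.filter fun a => P ω a y ≠ bK (f ω y)).card *
              Fintype.card (∀ ω, Ω' ω)) := by rw [h2]
          _ = (16 * (univ.filter fun a => P ω a y ≠ bK (f ω y)).card) *
              Fintype.card (∀ ω, Ω' ω) := by ring
          _ ≤ Fintype.card (Ω' ω) * Fintype.card (∀ ω, Ω' ω) := Nat.mul_le_mul_right _ h4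
          _ = _ := by ring
      exact Nat.le_of_mul_le_mul_right h7 (hΩ0 ω)
    have h2 : (W y).card = ∑ ω, (univ.filter fun ρ : (∀ ω, Ω' ω) =>
        P ω (ρ ω) y ≠ bK (f ω y)).card := by
      simp only [hW, Finset.card_filter]
      rw [Fintype.sum_prod_type]
    rw [h2, Finset.mul_sum, Fintype.card_prod]
    calc ∑ ω, 16 * (univ.filter fun ρ : (∀ ω, Ω' ω) => P ω (ρ ω) y ≠ bK (f ω y)).card
        ≤ ∑ _ω : Ω, Fintype.card (∀ ω, Ω' ω) := Finset.sum_le_sum fun ω _ => h1 ω
      _ = _ := by rw [Finset.sum_const, Finset.card_univ, smul_eq_mul]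
  have hΩ₂c : Fintype.card Ω₂ = Fintype.card Ω * Fintype.card (∀ ω, Ω' ω) := Fintype.card_prod _ _
  -- the copies in which the value of `f` is `c`
  have hval : ∀ (y : V → Bool) (c : Bool), (univ.filter fun x : Ω₂ => f x.1 y = c).card =
      (univ.filter fun ω => f ω y = c).card * Fintype.card (∀ ω, Ω' ω) := by
    intro y c
    have h1 : (univ.filter fun x : Ω₂ => f x.1 y = c) =
        (univ.filter fun ω => f ω y = c) ×ˢ (univ : Finset (∀ ω, Ω' ω)) := by
      ext x
      constructor
      · intro hx
        exact Finset.mem_product.2 ⟨Finset.mem_filter.2 ⟨Finset.mem_univ _,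
          (Finset.mem_filter.1 hx).2⟩, Finset.mem_univ _⟩
      · intro hx
        exact Finset.mem_filter.2 ⟨Finset.mem_univ _,
          (Finset.mem_filter.1 (Finset.mem_product.1 hx).1).2⟩
    rw [h1, Finset.card_product, Finset.card_univ]
  have hgood : ∀ x y, x ∉ W y → b x y = f x.1 y := by
    intro x y hx
    have h1 : P x.1 (x.2 x.1) y = bK (f x.1 y) := by
      by_contra h
      exact hx (Finset.mem_filter.2 ⟨Finset.mem_univ _, h⟩)
    simp only [hb, h1]
    rcases Bool.eq_false_or_eq_true (f x.1 y) with h | h <;> simp [h]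
  -- the copies with the value `c`
  have hbc : ∀ (y : V → Bool) (c : Bool), 3 * (univ.filter fun ω => f ω y = c).card ≤ Fintype.card Ω →
      5 * (univ.filter fun x : Ω₂ => b x y = c).card ≤ 2 * Fintype.card Ω₂ := by
    intro y c h
    have h1 : (univ.filter fun x : Ω₂ => b x y = c) ⊆
        (univ.filter fun x : Ω₂ => f x.1 y = c) ∪ W y := by
      intro x hx
      rw [Finset.mem_union]
      by_cases hxW : x ∈ W y
      · exact Or.inr hxW
      · left
        refine Finset.mem_filter.2 ⟨Finset.mem_univ _, ?_⟩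
        rw [← hgood x y hxW]
        exact (Finset.mem_filter.1 hx).2
    have h2 := (Finset.card_le_card h1).trans (Finset.card_union_le _ _)
    rw [hval] at h2
    have h3 := hWc y
    have h4 : 3 * ((univ.filter fun ω => f ω y = c).card * Fintype.card (∀ ω, Ω' ω)) ≤
        Fintype.card Ω₂ := by
      rw [hΩ₂c]
      calc 3 * ((univ.filter fun ω => f ω y = c).card * Fintype.card (∀ ω, Ω' ω))
          = (3 * (univ.filter fun ω => f ω y = c).card) * Fintype.card (∀ ω, Ω' ω) := by ring
        _ ≤ _ := Nat.mul_le_mul_right _ h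
    omega
  set maj : (Fin (36 * L) → Bool) → Bool := fun c =>
    decide (36 * L < 2 * (univ.filter fun i => c i = true).card) with hmaj
  set Bad : (V → Bool) → (Fin (36 * L) → Ω₂) → Prop := fun y x =>
    (2 * Fintype.card Ω ≤ 3 * (univ.filter fun ω => f ω y = true).card ∧
      maj (fun i => b (x i) y) = false) ∨
    (3 * (univ.filter fun ω => f ω y = true).card ≤ Fintype.card Ω ∧
      maj (fun i => b (x i) y) = true) with hBad
  have hcount : ∀ y : V → Bool, (univ.filter fun x => Bad y x).card * 2 ^ L ≤
      Fintype.card Ω₂ ^ (36 * L) := by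
    intro y
    have hsum : (univ.filter fun ω => f ω y = true).card +
        (univ.filter fun ω => f ω y = false).card = Fintype.card Ω := by
      rw [← Finset.card_univ, ← Finset.card_filter_add_card_filter_not
        (s := (univ : Finset Ω)) (p := fun ω => f ω y = true)]
      congr 2
      ext ω
      simp
    rcases Nat.lt_or_ge (3 * (univ.filter fun ω => f ω y = true).card) (2 * Fintype.card Ω)
      with hlt | hge
    · rcases Nat.lt_or_ge (Fintype.card Ω) (3 * (univ.filter fun ω => f ω y = true).card)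
        with hlt' | hge'
      · have : (univ.filter fun x => Bad y x) = ∅ := by
          rw [Finset.filter_eq_empty_iff]
          intro x _ hx
          simp only [hBad] at hx
          omega
        rw [this]
        simp
      · refine le_trans (Nat.mul_le_mul_right _ (Finset.card_le_card ?_))
          (vote L (univ.filter fun x : Ω₂ => b x y = true) (hbc y true hge'))
        intro x hx
        rw [Finset.mem_filter] at hx ⊢
        refine ⟨hx.1, ?_⟩
        have hx2 := hx.2
        simp only [hBad] at hx2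
        have h5 : maj (fun i => b (x i) y) = true := by
          rcases hx2 with h | h
          · omega
          · exact h.2
        simp only [hmaj, decide_eq_true_eq] at h5
        have h6 : (univ.filter fun i => x i ∈ univ.filter fun x : Ω₂ => b x y = true) =
            univ.filter fun i => b (x i) y = true := by
          ext i
          simp
        rw [h6]
        omega
    · have hfalse : 3 * (univ.filter fun ω => f ω y = false).card ≤ Fintype.card Ω := by omega
      refine le_trans (Nat.mul_le_mul_right _ (Finset.card_le_card ?_))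
        (vote L (univ.filter fun x : Ω₂ => b x y = false) (hbc y false hfalse))
      intro x hx
      rw [Finset.mem_filter] at hx ⊢
      refine ⟨hx.1, ?_⟩
      have hx2 := hx.2
      simp only [hBad] at hx2
      have h5 : maj (fun i => b (x i) y) = false := by
        rcases hx2 with h | h
        · exact h.2
        · omega
      simp only [hmaj, decide_eq_false_iff_not] at h5
      have h6 : (univ.filter fun i => x i ∈ univ.filter fun x : Ω₂ => b x y = false) =
          univ.filter fun i => b (x i) y = false := by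
        ext i
        simp
      rw [h6]
      have h7 : (univ.filter fun i => b (x i) y = true).card +
          (univ.filter fun i => b (x i) y = false).card = 36 * L := by
        conv_rhs => rw [← Fintype.card_fin (36 * L)]
        rw [← Finset.card_univ, ← Finset.card_filter_add_card_filter_not
          (s := (univ : Finset (Fin (36 * L)))) (p := fun i => b (x i) y = true)]
        congr 2
        ext i
        simp
      omega
  -- a good choice
  obtain ⟨x, hx⟩ : ∃ x : Fin (36 * L) → Ω₂,
      (univ.filter fun y : V → Bool => Bad y x).card * 2 ^ L ≤ 2 ^ Fintype.card V := by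
    by_contra hcon
    push Not at hcon
    have hne : (univ : Finset (Fin (36 * L) → Ω₂)).Nonempty := by
      rw [Finset.univ_nonempty_iff]
      have : ∀ ω, Nonempty (Ω' ω) := fun ω => Fintype.card_pos_iff.1 (hΩ0 ω)
      infer_instance
    have h1 := Finset.sum_lt_sum_of_nonempty hne fun x _ => hcon x
    rw [← Finset.sum_mul] at h1
    have h2 : ∑ x : Fin (36 * L) → Ω₂, (univ.filter fun y : V → Bool => Bad y x).card =
        ∑ y : V → Bool, (univ.filter fun x : Fin (36 * L) → Ω₂ => Bad y x).card := by
      simp only [Finset.card_filter]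
      exact Finset.sum_comm
    rw [h2, Finset.sum_mul] at h1
    have h3 : ∑ y : V → Bool, (univ.filter fun x : Fin (36 * L) → Ω₂ => Bad y x).card * 2 ^ L ≤
        ∑ _y : V → Bool, Fintype.card Ω₂ ^ (36 * L) := Finset.sum_le_sum fun y _ => hcount y
    have h4 := h1.trans_le h3
    simp only [Finset.sum_const, Finset.card_univ, Fintype.card_fun, Fintype.card_bool,
      Fintype.card_fin, smul_eq_mul] at h4
    rw [mul_comm] at h4
    exact lt_irrefl _ h4
  refine ⟨fun y => bK (maj fun i => b (x i) y), T5a (fun i => b (x i)) (fun i => hbm (x i)) maj,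
    univ.filter fun y : V → Bool => Bad y x, hx, ?_, ?_⟩
  · intro y hy h
    have : maj (fun i => b (x i) y) = true := by
      by_contra h2
      rw [Bool.not_eq_true] at h2
      exact hy (Finset.mem_filter.2 ⟨Finset.mem_univ _, Or.inl ⟨h, h2⟩⟩)
    change (bK (maj fun i => b (x i) y) : ZMod p) = 1
    rw [this]
    rfl
  · intro y hy h
    have : maj (fun i => b (x i) y) = false := by
      by_contra h2
      rw [Bool.not_eq_false] at h2
      exact hy (Finset.mem_filter.2 ⟨Finset.mem_univ _, Or.inr ⟨h, h2⟩⟩)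
    change (bK (maj fun i => b (x i) y) : ZMod p) = 0
    rw [this]
    rfl

end Pool.Agent.W897.MA
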