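import Pool.Agent.W897.MA.Red
import Pool.Agent.W897.MA.Gen
import Pool.Agent.W897.MA.Arith

/-!
# Lower bounds for the length of proofs of unsatisfiability
-/

namespace Pool.Agent.W897.MA

open H746R3.Inv Finset Pool.Agent.H820R3.AC

section

variable {k μ N q n : ℕ}

/-- the table of the formula, as a function of the bits `y` -/
noncomputable def inst (e : Var k μ N q ↪ Fin n) (h0 h1 : Fin k)
    (y : Fin (μ ^ k) × Fin N → Bool) : Formula k n :=
  form e h0 h1 fun ι l => y (finFunctionFinEquiv ι, l)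

theorem inst_sat (e : Var k μ N q ↪ Fin n) (hk : 3 ≤ k) (h0 h1 : Fin k)
    (e0 : (h0 : ℕ) = 0) (e1 : (h1 : ℕ) = 1) (y : Fin (μ ^ k) × Fin N → Bool) :
    Satisfiable (inst e h0 h1 y) ↔ ∃ i, ¬ q ∣ (univ.filter fun j => y (i, j) = true).card := by
  unfold inst
  rw [form_sat e hk h0 h1 e0 e1]
  constructor
  · rintro ⟨ι, h⟩
    exact ⟨_, h⟩
  · rintro ⟨i, h⟩
    refine ⟨finFunctionFinEquiv.symm i, ?_⟩
    simpa using h

theorem inst_LD {p : ℕ} [Fact p.Prime] (e : Var k μ N q ↪ Fin n) (hq : 2 ≤ q) (h0 h1 : Fin k)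
    (e0 : (h0 : ℕ) = 0) (e1 : (h1 : ℕ) = 1) (c : Clause k n) :
    (fun y => (bK (inst e h0 h1 y c) : ZMod p)) ∈ LD (ZMod p) (Fin (μ ^ k) × Fin N) 1 := by
  rcases form_bit e hq h0 h1 e0 e1 c with ⟨b, hb⟩ | ⟨ι, l, b, hb⟩
  · exact bit_LD (Or.inl ⟨b, fun y => hb _⟩)
  · exact bit_LD (Or.inr ⟨(finFunctionFinEquiv ι, l), b, fun y => hb _⟩)

end

/-- the bound for two-sided error, with all parameters -/
theorem ma_aux {p : ℕ} [Fact p.Prime] {K : Type*} [Field K] [Algebra (ZMod p) K] (ζ : K) {q : ℕ}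
    (hζ0 : ζ ≠ 0) (hζ1 : ζ ≠ 1) (hζ : ζ ^ q = 1) (hq : 2 ≤ q) {k μ N n h s g : ℕ} (hk : 3 ≤ k)
    (hN : q - 1 ≤ N) (hn : (2 * μ + 1) * ((N + 1) * q + k) ≤ n) {Ω : Type} [Fintype Ω] [Nonempty Ω]
    (V : (Fin g → Bool) → Ω → Circuit (Clause k n) Unit) (hV : ∀ z ω, SmallCircuit h s (V z ω))
    (hcomp : ∀ φ : Formula k n, ¬ Satisfiable φ →
      ∃ z, 2 * Nat.card Ω ≤ 3 * Nat.card {ω // Accepts p (V z ω) φ})
    (hsound : ∀ φ : Formula k n, Satisfiable φ →
      ∀ z, 3 * Nat.card {ω // Accepts p (V z ω) φ} ≤ Nat.card Ω)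
    (ℓ j L : ℕ) (hℓ : 1 ≤ ℓ) (hℓs : 16 * (s + 1) ≤ p ^ ℓ) (hj : 8 * j ≤ μ ^ k * N)
    (hL : (μ ^ k * N + 1) * 2 ^ (((q - 1) * μ ^ k + g) + 16 * j ^ 2 / (μ ^ k * N) + 1) < 2 ^ L) :
    μ ^ k * (N - N / 2) ≤ (μ ^ k * N / 2 - j) + 36 * L * ((p - 1) * (ℓ * (p - 1)) ^ h) := by
  classical
  have : NeZero q := ⟨by omega⟩
  have h0 : Fin k := ⟨0, by omega⟩
  obtain ⟨e⟩ : Nonempty (Var k μ N q ↪ Fin n) := by
    rw [Function.Embedding.nonempty_iff_card_le, card_var, Fintype.card_fin]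
    exact hn
  set h0 : Fin k := ⟨0, by omega⟩ with hh0
  set h1 : Fin k := ⟨1, by omega⟩ with hh1
  have e0 : (h0 : ℕ) = 0 := rfl
  have e1 : (h1 : ℕ) = 1 := rfl
  set t := μ ^ k with ht
  set Z : Finset (Fin t × Fin N → Bool) := univ.filter fun y =>
    ∀ i, q ∣ (univ.filter fun j => y (i, j) = true).card with hZ
  have hcardV : Fintype.card (Fin t × Fin N) = t * N := by simp
  have hZc := T8 q t N (by omega) hN
  rw [← hZ] at hZc
  have hZsat : ∀ y, y ∈ Z ↔ ¬ Satisfiable (inst e h0 h1 y) := by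
    intro y
    rw [inst_sat e hk h0 h1 e0 e1, hZ, Finset.mem_filter]
    push Not
    exact ⟨fun h => h.2, fun h => ⟨Finset.mem_univ _, h⟩⟩
  -- the value of the circuit
  set f : (Fin g → Bool) → Ω → (Fin t × Fin N → Bool) → Bool := fun z ω y =>
    (V z ω).wire (inst e h0 h1 y) ((V z ω).run p (inst e h0 h1 y)) ((V z ω).out ()) with hf
  have hfacc : ∀ z ω y, Accepts p (V z ω) (inst e h0 h1 y) ↔ f z ω y = true := by
    intro z ω y
    exact computes_iff (V z ω) (inst e h0 h1 y) true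
  have hfcard : ∀ z y, Nat.card {ω // Accepts p (V z ω) (inst e h0 h1 y)} =
      (univ.filter fun ω => f z ω y = true).card := by
    intro z y
    rw [Nat.card_eq_fintype_card, Fintype.card_subtype]
    congr 1
    ext ω
    simp only [Finset.mem_filter, Finset.mem_univ, true_and]
    exact hfacc z ω y
  set S : (Fin g → Bool) → Finset (Fin t × Fin N → Bool) := fun z => Z.filter fun y =>
    2 * Fintype.card Ω ≤ 3 * (univ.filter fun ω => f z ω y = true).card with hS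
  -- a popular proof
  obtain ⟨z, hz⟩ : ∃ z, Z.card ≤ 2 ^ g * (S z).card := by
    by_contra hcon
    push Not at hcon
    have h2 : Z ⊆ (univ : Finset (Fin g → Bool)).biUnion S := by
      intro y hy
      rw [Finset.mem_biUnion]
      obtain ⟨z, hz⟩ := hcomp _ ((hZsat y).1 hy)
      refine ⟨z, Finset.mem_univ _, Finset.mem_filter.2 ⟨hy, ?_⟩⟩
      rw [← hfcard, ← Nat.card_eq_fintype_card]
      exact hz
    have h3 := (Finset.card_le_card h2).trans Finset.card_biUnion_le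
    have h4 : ∑ z : Fin g → Bool, 2 ^ g * (S z).card < ∑ _z : Fin g → Bool, Z.card :=
      Finset.sum_lt_sum_of_nonempty Finset.univ_nonempty fun z _ => hcon z
    rw [← Finset.mul_sum, Finset.sum_const, Finset.card_univ, Fintype.card_fun, Fintype.card_bool,
      Fintype.card_fin, smul_eq_mul] at h4
    have h5 := Nat.lt_of_mul_lt_mul_left h4
    omega
  have hPP : ∀ ω, PP p ((ℓ * (p - 1)) ^ h) ℓ s (f z ω) := by
    intro ω
    obtain ⟨c1, c2, c3⟩ := hV z ω
    refine PP.mono_e (T4a (V z ω) h ℓ hℓ c1 c2 (fun c y => inst e h0 h1 y c)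
      (inst_LD e hq h0 h1 e0 e1) (f z ω) ?_) c3
    intro y
    rw [computes_iff]
  obtain ⟨Q, hQ, E, hE, hQ1, hQ0⟩ := amplify (f z) hPP (by omega : 16 * s ≤ p ^ ℓ) L
  rw [hcardV] at hE
  refine core ζ hζ0 hζ1 (S z) E (fun y => algebraMap (ZMod p) K (Q y)) (T6 K hQ) ?_ ?_ ?_
  · intro y hy hyE
    rw [hQ1 y hyE (Finset.mem_filter.1 hy).2]
    simp
  · intro y hyE hne i
    refine prod_zz ζ hζ (fun j => y (i, j)) ?_
    by_contra hdiv
    apply hne
    have h2 : Satisfiable (inst e h0 h1 y) := (inst_sat e hk h0 h1 e0 e1 y).2 ⟨i, hdiv⟩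
    have h3 := hsound _ h2 z
    rw [hfcard, Nat.card_eq_fintype_card] at h3
    rw [hQ0 y hyE h3]
    simp
  · by_contra hcon
    push Not at hcon
    have h3 := T3 (t * N) j hj
    set B := ball (t * N) (t * N / 2 - j) with hB
    set X := (q - 1) * t with hX
    set Y := 16 * j ^ 2 / (t * N) + 1 with hY
    have h4 : 2 ^ (t * N) * 2 ^ (t * N) ≤ ((t * N + 1) * 2 ^ (X + g + Y)) * ((S z).card * B) := by
      calc 2 ^ (t * N) * 2 ^ (t * N)
          ≤ (2 ^ X * (2 ^ g * (S z).card)) * ((t * N + 1) * 2 ^ Y * B) :=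
            Nat.mul_le_mul (hZc.trans (Nat.mul_le_mul_left _ hz)) h3
        _ = ((t * N + 1) * 2 ^ (X + g + Y)) * ((S z).card * B) := by
            rw [pow_add, pow_add]; ring
    have hpos : 0 < (S z).card * B := by
      rcases Nat.eq_zero_or_pos ((S z).card * B) with h | h
      · rw [h, mul_zero] at h4
        have := Nat.mul_pos (Nat.pow_pos (n := t * N) (show 0 < 2 by norm_num))
          (Nat.pow_pos (n := t * N) (show 0 < 2 by norm_num))
        omega
      · exact h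
    have h5 : ((t * N + 1) * 2 ^ (X + g + Y)) * ((S z).card * B) < 2 ^ L * ((S z).card * B) := by
      refine Nat.mul_lt_mul_of_pos_right ?_ hpos
      rw [hY, ← add_assoc]
      exact hL
    have h6 : 2 ^ L * ((S z).card * B) ≤ 2 ^ (t * N) * 2 ^ (t * N) := by
      calc 2 ^ L * ((S z).card * B) ≤ 2 ^ L * (E.card * 2 ^ (t * N)) := Nat.mul_le_mul_left _ hcon
        _ = (E.card * 2 ^ L) * 2 ^ (t * N) := by ring
        _ ≤ 2 ^ (t * N) * 2 ^ (t * N) := Nat.mul_le_mul_right _ hE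
    omega

/-- **Merlin-Arthur proofs of unsatisfiability.** -/
theorem ma_bound (p h k : ℕ) (hp : p.Prime) (hk : 3 ≤ k) : ∃ C : ℕ, ∀ (n s g : ℕ) (Ω : Type)
    [Fintype Ω] [Nonempty Ω] (V : (Fin g → Bool) → Ω → Circuit (Clause k n) Unit),
    (∀ z ω, SmallCircuit h s (V z ω)) →
    (∀ φ : Formula k n, ¬ Satisfiable φ →
      ∃ z, 2 * Nat.card Ω ≤ 3 * Nat.card {ω // Accepts p (V z ω) φ}) →
    (∀ φ : Formula k n, Satisfiable φ →
      ∀ z, 3 * Nat.card {ω // Accepts p (V z ω) φ} ≤ Nat.card Ω) →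
    n ^ k ≤ C * (g + 1) * (Nat.log 2 (s + n) + 1) ^ ((2 * h + 2) * k + 1) := by
  have : Fact p.Prime := ⟨hp⟩
  obtain ⟨q, hq, hq', ζ, h0, h1, hζ⟩ := T12 p
  obtain ⟨C, hC⟩ := arith2 p h k q hp.two_le (by omega) hq hq'
  refine ⟨C, fun n s g Ω _ _ V hV hcomp hsound => hC n s g ?_⟩
  intro D ℓ μ N hD hℓ hℓs hμ hN hn j L hj hL
  refine (ma_aux ζ h0 h1 hζ hq hk hN hn V hV hcomp hsound ℓ j L hℓ hℓs hj hL).trans ?_
  apply Nat.add_le_add_left
  rw [hD]
  have h2 : (ℓ * (p - 1)) ^ h ≤ (ℓ * (p - 1)) ^ (h + 1) := by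
    apply Nat.pow_le_pow_right _ (by omega)
    apply Nat.mul_pos
    · omega
    · have := hp.two_le
      omega
  calc 36 * L * ((p - 1) * (ℓ * (p - 1)) ^ h) ≤ 36 * L * ((p - 1) * (ℓ * (p - 1)) ^ (h + 1)) := by
        gcongr
    _ = _ := by ring

/-- **Proofs of unsatisfiability with an unbounded adviser.** -/
theorem bob_bound (p h k : ℕ) (hp : p.Prime) (hk : 3 ≤ k) : ∃ C : ℕ, ∀ (n s g m e : ℕ) (Ω : Type)
    [Fintype Ω] [Nonempty Ω] (P : (Fin g → Bool) → Ω → Protocol (Clause k n) m)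
    (A : (Fin g → Bool) → Ω → Set (Fin m → Bool)),
    (∀ z ω, (P z ω).Small h s) →
    (∀ φ : Formula k n, ¬ Satisfiable φ → ∃ z, Nat.card Ω ≤
      2 ^ e * Nat.card {ω // ∀ τ, (P z ω).Sends p φ τ → τ ∈ A z ω}) →
    (∀ φ : Formula k n, Satisfiable φ → ∀ z ω τ, (P z ω).Sends p φ τ → τ ∉ A z ω) →
    n ^ k ≤ C * (g + m + e + 1) * (Nat.log 2 (s + n) + 1) ^ ((2 * h + 2) * k + 1) := by
  have : Fact p.Prime := ⟨hp⟩
  obtain ⟨q, hq, hq', ζ, hζ0, hζ1, hζ⟩ := T12 p
  obtain ⟨C, hC⟩ := arith2 p h k q hp.two_le (by omega) hq hq'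
  refine ⟨C, fun n s g m e Ω _ _ P A hP hcomp hsound => ?_⟩
  rw [show g + m + e + 1 = (e + g + m) + 1 by ring]
  refine hC n s (e + g + m) ?_
  intro D ℓ μ N hD hℓ hℓs hμ hN hn j L hj hL
  have : NeZero q := ⟨by omega⟩
  obtain ⟨emb⟩ : Nonempty (Var k μ N q ↪ Fin n) := by
    rw [Function.Embedding.nonempty_iff_card_le, card_var, Fintype.card_fin]
    exact hn
  set h0 : Fin k := ⟨0, by omega⟩ with hh0
  set h1 : Fin k := ⟨1, by omega⟩ with hh1
  have e0 : (h0 : ℕ) = 0 := rfl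
  have e1 : (h1 : ℕ) = 1 := rfl
  have hT := T11 (K := AlgebraicClosure (ZMod p)) ζ hζ0 hζ1 hζ (by omega) hN
    (Ω := (Fin g → Bool) × Ω) (e := e + g)
    (fun x => P x.1 x.2) (fun x => hP x.1 x.2) (fun x => A x.1 x.2)
    (t := μ ^ k) (inst emb h0 h1) (inst_LD emb hq h0 h1 e0 e1) ?_ ?_ ℓ j L hℓ hℓs hj ?_
  · refine hT.trans (Nat.add_le_add_left ?_ _)
    rw [hD]
    apply Nat.mul_le_mul_left
    omega
  · intro y x τ hs hτ i
    by_contra hdiv
    exact hsound _ ((inst_sat emb hk h0 h1 e0 e1 y).2 ⟨i, hdiv⟩) x.1 x.2 τ hs hτ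
  · intro y hy
    have h2 : ¬ Satisfiable (inst emb h0 h1 y) := by
      rw [inst_sat emb hk h0 h1 e0 e1]
      push Not
      exact hy
    obtain ⟨z, hz⟩ := hcomp _ h2
    have h3 : Nat.card {ω // ∀ τ, (P z ω).Sends p (inst emb h0 h1 y) τ → τ ∈ A z ω} ≤
        Nat.card {x : (Fin g → Bool) × Ω //
          ∀ τ, (P x.1 x.2).Sends p (inst emb h0 h1 y) τ → τ ∈ A x.1 x.2} := by
      refine Nat.card_le_card_of_injective (fun ω => ⟨(z, ω.1), ω.2⟩) ?_
      intro a b hab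
      have := congrArg (fun x => x.1.2) hab
      exact Subtype.ext this
    rw [Fintype.card_prod, Fintype.card_fun, Fintype.card_bool, Fintype.card_fin,
      ← Nat.card_eq_fintype_card, pow_add]
    calc 2 ^ g * Nat.card Ω ≤ 2 ^ g * (2 ^ e *
          Nat.card {ω // ∀ τ, (P z ω).Sends p (inst emb h0 h1 y) τ → τ ∈ A z ω}) :=
          Nat.mul_le_mul_left _ hz
      _ ≤ 2 ^ g * (2 ^ e * Nat.card {x : (Fin g → Bool) × Ω //
          ∀ τ, (P x.1 x.2).Sends p (inst emb h0 h1 y) τ → τ ∈ A x.1 x.2}) := by gcongr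
      _ = _ := by ring
  · have h2 : (q - 1) * μ ^ k + (e + g) + m = (q - 1) * μ ^ k + (e + g + m) := by ring
    rw [h2]
    exact hL

open Classical in
/-- the circuit that checks the assignment `z`: no clause violated by `z` belongs to the formula -/
noncomputable abbrev chk {k n : ℕ} (z : Fin n → Bool) : Circuit (Clause k n) Unit where
  G := 1
  kind := fun _ => Kind.and
  wires := fun _ => ((univ : Finset (Clause k n)).filter
    fun c => ¬ ∃ i, z (c i).1 = (c i).2).toList.map fun c => (true, Sum.inl c)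
  level := fun _ => 0
  level_lt := by
    intro g b g' h
    simp at h
  out := fun _ => (false, Sum.inr 0)

open Classical in
theorem chk_run {k n : ℕ} (p : ℕ) (z : Fin n → Bool) (φ : Formula k n) (v : Fin 1 → Bool) :
    (chk (k := k) z).IsRun p φ v ↔
      v 0 = decide (∀ c : Clause k n, (¬ ∃ i, z (c i).1 = (c i).2) → φ c = false) := by
  have h2 : Kind.eval p Kind.and ((((univ : Finset (Clause k n)).filter
      fun c => ¬ ∃ i, z (c i).1 = (c i).2).toList.map fun c =>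
        ((true, Sum.inl c) : Bool × (Clause k n ⊕ Fin 1))).map ((chk (k := k) z).wire φ v)) =
      decide (∀ c : Clause k n, (¬ ∃ i, z (c i).1 = (c i).2) → φ c = false) := by
    rw [List.map_map]
    unfold Kind.eval
    rw [Bool.eq_iff_iff, List.all_eq_true, decide_eq_true_iff]
    constructor
    · intro h c hc
      have h3 := h _ (List.mem_map.2 ⟨c, by
        rw [Finset.mem_toList, Finset.mem_filter]
        exact ⟨Finset.mem_univ _, hc⟩, rfl⟩)
      have h4 : xor true (φ c) = true := h3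
      simpa using h4
    · intro h b hb
      obtain ⟨c, hc, rfl⟩ := List.mem_map.1 hb
      rw [Finset.mem_toList, Finset.mem_filter] at hc
      have h3 := h c hc.2
      change xor true (φ c) = true
      rw [h3]
      rfl
  unfold Circuit.IsRun
  constructor
  · intro h
    rw [← h2]
    exact h (0 : Fin 1)
  · intro h g
    have : g = (0 : Fin 1) := Subsingleton.elim (α := Fin 1) _ _
    rw [this, ← h2] at *
    exact h

/-- **Proofs of satisfiability.** -/
theorem sat_proofs (p k n : ℕ) : ∃ V : (Fin n → Bool) → Circuit (Clause k n) Unit,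
    (∀ z, SmallCircuit 1 1 (V z)) ∧
      ∀ φ : Formula k n, Satisfiable φ ↔ ∃ z, Accepts p (V z) φ := by
  classical
  refine ⟨chk, fun z => ⟨fun g => Nat.lt_succ_self 0, fun g => id, le_refl _⟩, fun φ => ?_⟩
  unfold Satisfiable
  refine exists_congr fun z => ?_
  unfold Accepts Circuit.Computes
  constructor
  · intro h
    refine ⟨fun _ => true, (chk_run p z φ _).2 ?_, fun _ => rfl⟩
    symm
    rw [decide_eq_true_iff]
    intro c hc
    by_contra h2
    exact hc (h c (by simpa using h2))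
  · rintro ⟨v, hv, hout⟩ c hc
    have h2 := (chk_run p z φ v).1 hv
    have h3 : true = xor false (v 0) := hout ()
    rw [Bool.false_xor] at h3
    rw [← h3] at h2
    have h4 := of_decide_eq_true h2.symm
    by_contra h5
    have := h4 c h5
    rw [hc] at this
    exact Bool.noConfusion this

end Pool.Agent.W897.MA
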