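import Pool.Agent.W897.MA.Defs

/-!
# The reduction

For `y` a table with rows indexed by `Fin k → Fin μ` and `N` columns we construct a `k`-CNF which is
satisfiable if and only if some row has a number of ones that is not divisible by `q`.
-/

namespace Pool.Agent.W897.MA

open Finset

/-- the variables of the formula -/
inductive Var (k μ N q : ℕ) : Type
  /-- the partial sum number `l` of the selected row is `r` -/
  | g (l : Fin (N + 1)) (r : ZMod q)
  | a (i : Fin μ) (l : Fin (N + 1)) (r : ZMod q)
  | b (i : Fin μ) (l : Fin (N + 1)) (r : ZMod q)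
  | u (c : Fin k) (i : Fin μ)
  | t (c : Fin k) (i : Fin (μ + 1))
  deriving DecidableEq

/-- encoding of the variables -/
def varEquiv (k μ N q : ℕ) : Var k μ N q ≃
    (Fin (N + 1) × ZMod q) ⊕ (Fin μ × Fin (N + 1) × ZMod q) ⊕ (Fin μ × Fin (N + 1) × ZMod q) ⊕
      (Fin k × Fin μ) ⊕ (Fin k × Fin (μ + 1)) where
  toFun
    | .g l r => .inl (l, r)
    | .a i l r => .inr (.inl (i, l, r))
    | .b i l r => .inr (.inr (.inl (i, l, r)))
    | .u c i => .inr (.inr (.inr (.inl (c, i))))
    | .t c i => .inr (.inr (.inr (.inr (c, i))))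
  invFun
    | .inl (l, r) => .g l r
    | .inr (.inl (i, l, r)) => .a i l r
    | .inr (.inr (.inl (i, l, r))) => .b i l r
    | .inr (.inr (.inr (.inl (c, i)))) => .u c i
    | .inr (.inr (.inr (.inr (c, i)))) => .t c i
  left_inv x := by cases x <;> rfl
  right_inv x := by rcases x with x | x | x | x | x <;> rfl

instance (k μ N q : ℕ) [NeZero q] : Fintype (Var k μ N q) :=
  Fintype.ofEquiv _ (varEquiv k μ N q).symm

theorem card_var (k μ N q : ℕ) [NeZero q] :
    Fintype.card (Var k μ N q) = (2 * μ + 1) * ((N + 1) * q + k) := by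
  rw [Fintype.card_congr (varEquiv k μ N q)]
  simp only [Fintype.card_sum, Fintype.card_prod, Fintype.card_fin, ZMod.card]
  ring

/-- a clause with three literals -/
def cl3 {k : ℕ} {W : Type} (x y z : W × Bool) : Fin k → W × Bool := fun i =>
  if (i : ℕ) = 0 then x else if (i : ℕ) = 1 then y else z

theorem cl3_sat {k : ℕ} {W : Type} (hk : 3 ≤ k) (α : W → Bool) (x y z : W × Bool) :
    (∃ i : Fin k, α (cl3 x y z i).1 = (cl3 x y z i).2) ↔
      α x.1 = x.2 ∨ α y.1 = y.2 ∨ α z.1 = z.2 := by
  constructor
  · rintro ⟨i, hi⟩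
    unfold cl3 at hi
    split_ifs at hi
    · exact Or.inl hi
    · exact Or.inr (Or.inl hi)
    · exact Or.inr (Or.inr hi)
  · rintro (h | h | h)
    · exact ⟨⟨0, by omega⟩, by simpa [cl3] using h⟩
    · exact ⟨⟨1, by omega⟩, by simpa [cl3] using h⟩
    · exact ⟨⟨2, by omega⟩, by simpa [cl3] using h⟩

variable {k μ N q : ℕ}

/-- value of a bit -/
def zb {q : ℕ} (b : Bool) : ZMod q := if b = true then 1 else 0

theorem zb_inj (hq : 2 ≤ q) {x y : Bool} (h : (zb x : ZMod q) = zb y) : x = y := by
  have h1 : (1 : ZMod q) ≠ 0 := by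
    have : Fact (1 < q) := ⟨by omega⟩
    exact one_ne_zero
  cases x <;> cases y <;> simp_all [zb]

/-- the clause which says that in the row `ι`, if the partial sum number `l` is `r`, then the
next one is `r + b` -/
def rowCl (ι : Fin k → Fin μ) (h0 h1 : Fin k) (l : Fin N) (r : ZMod q) (b : Bool) :
    Fin k → Var k μ N q × Bool := fun i =>
  if (i : ℕ) = 0 then (.a (ι h0) l.castSucc r, true)
  else if (i : ℕ) = 1 then (.b (ι h1) l.succ (r + zb b), true)
  else (.u i (ι i), false)

/-- the clauses which do not depend on the table -/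
inductive IsFixed : (Fin k → Var k μ N q × Bool) → Prop
  | a (h0 : Fin k) (i l r) : (h0 : ℕ) = 0 →
      IsFixed (cl3 (.a i l r, false) (.u h0 i, false) (.g l r, false))
  | b (h1 : Fin k) (i l r) : (h1 : ℕ) = 1 →
      IsFixed (cl3 (.b i l r, false) (.u h1 i, false) (.g l r, true))
  | start : IsFixed (cl3 (.g 0 0, true) (.g 0 0, true) (.g 0 0, true))
  | fin : IsFixed (cl3 (.g (Fin.last N) 0, false) (.g (Fin.last N) 0, false)
      (.g (Fin.last N) 0, false))
  | tstart (c : Fin k) : IsFixed (cl3 (.t c 0, true) (.t c 0, true) (.t c 0, true))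
  | tstep (c : Fin k) (i : Fin μ) :
      IsFixed (cl3 (.t c i.castSucc, false) (.u c i, true) (.t c i.succ, true))
  | tfin (c : Fin k) : IsFixed (cl3 (.t c (Fin.last μ), false) (.t c (Fin.last μ), false)
      (.t c (Fin.last μ), false))

/-- the formula, over its own variables -/
def InForm (h0 h1 : Fin k) (y : (Fin k → Fin μ) → Fin N → Bool)
    (c : Fin k → Var k μ N q × Bool) : Prop :=
  IsFixed c ∨ ∃ ι l r, c = rowCl ι h0 h1 l r (y ι l)

/-- partial sums modulo `q` -/
def pre {q N : ℕ} (x : Fin N → Bool) (k : Fin (N + 1)) : ZMod q :=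
  (((univ.filter fun j : Fin N => (j : ℕ) < (k : ℕ) ∧ x j = true).card : ℕ) : ZMod q)

theorem pre_zero {q N : ℕ} (x : Fin N → Bool) : pre (q := q) x 0 = 0 := by
  unfold pre
  simp

theorem pre_last {q N : ℕ} (x : Fin N → Bool) : pre (q := q) x (Fin.last N)
    = (((univ.filter fun j => x j = true).card : ℕ) : ZMod q) := by
  unfold pre
  congr 2
  ext j
  simp

theorem pre_succ {q N : ℕ} (x : Fin N → Bool) (j : Fin N) : pre (q := q) x j.succ
    = pre (q := q) x j.castSucc + zb (x j) :=
  Pool.Agent.H820R3.AC.T9pre_succ x j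

/-- some row has a number of ones that is not divisible by `q` -/
theorem sat_iff (hk : 3 ≤ k) (h0 h1 : Fin k) (e0 : (h0 : ℕ) = 0) (e1 : (h1 : ℕ) = 1)
    (y : (Fin k → Fin μ) → Fin N → Bool) :
    (∃ α : Var k μ N q → Bool, ∀ c, InForm h0 h1 y c → ∃ i, α (c i).1 = (c i).2) ↔
      ∃ ι, ¬ q ∣ (univ.filter fun j => y ι j = true).card := by
  constructor
  · rintro ⟨α, hα⟩
    have hfix : ∀ x y z, IsFixed (k := k) (cl3 x y z) →
        α x.1 = x.2 ∨ α y.1 = y.2 ∨ α z.1 = z.2 := fun x y z h =>
      (cl3_sat hk α x y z).1 (hα _ (Or.inl h))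
    -- some block is selected in each group
    have hsel : ∀ c : Fin k, ∃ i, α (.u c i) = true := by
      intro c
      by_contra hcon
      push Not at hcon
      have key : ∀ j : ℕ, ∀ hj : j < μ + 1, α (.t c ⟨j, hj⟩) = true := by
        intro j
        induction j with
        | zero =>
          intro hj
          rcases hfix _ _ _ (IsFixed.tstart c) with h | h | h <;> simpa using h
        | succ j ih =>
          intro hj
          have h2 := ih (by omega)
          have h3 : j < μ := by omega
          rcases hfix _ _ _ (IsFixed.tstep c ⟨j, h3⟩) with h | h | h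
          · simp only [Fin.castSucc_mk] at h
            rw [h2] at h
            exact absurd h (by simp)
          · exact absurd h (hcon _)
          · simpa using h
      have h4 := key μ (by omega)
      rcases hfix _ _ _ (IsFixed.tfin c) with h | h | h <;>
        exact absurd (h4.symm.trans h) (by simp)
    choose ι hι using hsel
    refine ⟨ι, fun hdiv => ?_⟩
    have key : ∀ l : ℕ, ∀ hl : l < N + 1, α (.g ⟨l, hl⟩ (pre (y ι) ⟨l, hl⟩)) = true := by
      intro l
      induction l with
      | zero =>
        intro hl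
        have h2 : pre (q := q) (y ι) ⟨0, hl⟩ = 0 := pre_zero _
        rw [h2]
        rcases hfix _ _ _ IsFixed.start with h | h | h <;> simpa using h
      | succ l ih =>
        intro hl
        have h2 := ih (by omega)
        have hl' : l < N := by omega
        set L : Fin N := ⟨l, hl'⟩ with hL
        have hc : (⟨l, by omega⟩ : Fin (N + 1)) = L.castSucc := rfl
        have hs : (⟨l + 1, hl⟩ : Fin (N + 1)) = L.succ := rfl
        rw [hc] at h2
        rw [hs]
        set r := pre (q := q) (y ι) L.castSucc with hr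
        have h3 : α (.a (ι h0) L.castSucc r) = false := by
          rcases hfix _ _ _ (IsFixed.a h0 (ι h0) L.castSucc r e0) with h | h | h
          · exact h
          · exact absurd ((hι h0).symm.trans h) (by simp)
          · exact absurd (h2.symm.trans h) (by simp)
        have h4 : α (.b (ι h1) L.succ (r + zb (y ι L))) = true := by
          obtain ⟨i, hi⟩ := hα _ (Or.inr ⟨ι, L, r, rfl⟩)
          unfold rowCl at hi
          split_ifs at hi with c1 c2
          · exact absurd (h3.symm.trans hi) (by simp)
          · exact hi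
          · exact absurd ((hι i).symm.trans hi) (by simp)
        have h5 : pre (q := q) (y ι) L.succ = r + zb (y ι L) := pre_succ _ _
        rw [h5]
        rcases hfix _ _ _ (IsFixed.b h1 (ι h1) L.succ (r + zb (y ι L)) e1) with h | h | h
        · exact absurd (h4.symm.trans h) (by simp)
        · exact absurd ((hι h1).symm.trans h) (by simp)
        · exact h
    have h6 := key N (by omega)
    have h7 : pre (q := q) (y ι) ⟨N, by omega⟩ = 0 := by
      have h8 : (⟨N, by omega⟩ : Fin (N + 1)) = Fin.last N := rfl
      rw [h8, pre_last, (ZMod.natCast_eq_zero_iff _ _).2 hdiv]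
    rw [h7] at h6
    rcases hfix _ _ _ IsFixed.fin with h | h | h <;>
      exact absurd (h6.symm.trans h) (by simp)
  · rintro ⟨ι, hι⟩
    classical
    set α : Var k μ N q → Bool := fun v => match v with
      | .g l r => decide (r = pre (y ι) l)
      | .a i l r => !(decide (i = ι h0) && decide (r = pre (y ι) l))
      | .b i l r => !(decide (i = ι h1)) || decide (r = pre (y ι) l)
      | .u c i => decide (i = ι c)
      | .t c i => decide ((i : ℕ) ≤ (ι c : ℕ)) with hα
    refine ⟨α, ?_⟩
    rintro c (hc | ⟨κ, l, r, rfl⟩)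
    · cases hc with
      | a h0' i l r h =>
        have : h0' = h0 := Fin.ext (h.trans e0.symm)
        subst this
        rw [cl3_sat hk]
        simp only [hα]
        by_cases c1 : i = ι h0'
        · by_cases c2 : r = pre (y ι) l
          · simp [c1, c2]
          · simp [c2]
        · simp [c1]
      | b h1' i l r h =>
        have : h1' = h1 := Fin.ext (h.trans e1.symm)
        subst this
        rw [cl3_sat hk]
        simp only [hα]
        by_cases c1 : i = ι h1'
        · by_cases c2 : r = pre (y ι) l
          · simp [c2]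
          · simp [c1, c2]
        · simp [c1]
      | start =>
        rw [cl3_sat hk]
        simp [hα, pre_zero]
      | fin =>
        rw [cl3_sat hk]
        left
        simp only [hα]
        rw [pre_last]
        rw [decide_eq_false_iff_not]
        intro h
        exact hι ((ZMod.natCast_eq_zero_iff _ _).1 h.symm)
      | tstart c =>
        rw [cl3_sat hk]
        simp [hα]
      | tstep c i =>
        rw [cl3_sat hk]
        simp only [hα, Fin.val_castSucc, Fin.val_succ]
        rcases Nat.lt_trichotomy (i : ℕ) (ι c : ℕ) with h | h | h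
        · right; right
          simp only [decide_eq_true_eq]
          omega
        · right; left
          simp only [decide_eq_true_eq]
          exact Fin.ext h
        · left
          simp only [decide_eq_false_iff_not]
          omega
      | tfin c =>
        rw [cl3_sat hk]
        left
        simp only [hα, Fin.val_last, decide_eq_false_iff_not]
        have := (ι c).2
        omega
    · by_cases hκ : κ = ι
      · subst hκ
        by_cases hr : r = pre (y κ) l.castSucc
        · refine ⟨h1, ?_⟩
          unfold rowCl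
          rw [if_neg (by omega), if_pos e1]
          simp only [hα]
          rw [pre_succ, hr]
          simp
        · refine ⟨h0, ?_⟩
          unfold rowCl
          rw [if_pos e0]
          simp [hα, hr]
      · obtain ⟨i, hi⟩ : ∃ i, κ i ≠ ι i := by
          by_contra hcon
          push Not at hcon
          exact hκ (funext hcon)
        refine ⟨i, ?_⟩
        unfold rowCl
        split_ifs with c1 c2
        · have : i = h0 := Fin.ext (c1.trans e0.symm)
          subst this
          simp [hα, hi]
        · have : i = h1 := Fin.ext (c2.trans e1.symm)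
          subst this
          simp [hα, hi]
        · simp [hα, hi]

/-- the row clauses are different -/
theorem rowCl_inj (hq : 2 ≤ q) (h0 h1 : Fin k) (e0 : (h0 : ℕ) = 0) (e1 : (h1 : ℕ) = 1)
    {ι ι' : Fin k → Fin μ} {l l' : Fin N} {r r' : ZMod q} {b b' : Bool}
    (h : rowCl ι h0 h1 l r b = rowCl ι' h0 h1 l' r' b') : ι = ι' ∧ l = l' ∧ r = r' ∧ b = b' := by
  have h2 := congrFun h h0
  have h3 := congrFun h h1
  unfold rowCl at h2 h3
  have n1 : ¬ ((h1 : ℕ) = 0) := by omega
  rw [if_pos e0, if_pos e0] at h2
  rw [if_neg n1, if_pos e1, if_neg n1, if_pos e1] at h3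
  simp only [Prod.mk.injEq, Var.a.injEq, Var.b.injEq, and_true, Fin.castSucc_inj,
    Fin.succ_inj] at h2 h3
  obtain ⟨a1, a2, a3⟩ := h2
  obtain ⟨b1, b2, b3⟩ := h3
  subst a3
  refine ⟨?_, a2, rfl, zb_inj hq (add_left_cancel b3)⟩
  funext i
  by_cases c1 : (i : ℕ) = 0
  · have : i = h0 := Fin.ext (c1.trans e0.symm)
    subst this
    exact a1
  · by_cases c2 : (i : ℕ) = 1
    · have : i = h1 := Fin.ext (c2.trans e1.symm)
      subst this
      exact b1
    · have h4 := congrFun h i
      unfold rowCl at h4
      rw [if_neg c1, if_neg c1, if_neg c2, if_neg c2] at h4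
      simp only [Prod.mk.injEq, Var.u.injEq, and_true, true_and] at h4
      exact h4

open Classical in
/-- the formula over `n` variables -/
noncomputable def form {n : ℕ} (e : Var k μ N q ↪ Fin n) (h0 h1 : Fin k)
    (y : (Fin k → Fin μ) → Fin N → Bool) : Formula k n := fun c =>
  decide (∃ c', InForm h0 h1 y c' ∧ c = fun i => (e (c' i).1, (c' i).2))

theorem form_sat {n : ℕ} (e : Var k μ N q ↪ Fin n) (hk : 3 ≤ k) (h0 h1 : Fin k)
    (e0 : (h0 : ℕ) = 0) (e1 : (h1 : ℕ) = 1) (y : (Fin k → Fin μ) → Fin N → Bool) :
    Satisfiable (form e h0 h1 y) ↔ ∃ ι, ¬ q ∣ (univ.filter fun j => y ι j = true).card := by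
  classical
  rw [← sat_iff hk h0 h1 e0 e1 y]
  constructor
  · rintro ⟨α, hα⟩
    refine ⟨fun v => α (e v), fun c hc => ?_⟩
    exact hα (fun i => (e (c i).1, (c i).2)) (decide_eq_true ⟨c, hc, rfl⟩)
  · rintro ⟨α, hα⟩
    refine ⟨fun v => if h : ∃ w, e w = v then α h.choose else false, fun c hc => ?_⟩
    obtain ⟨c', hc', rfl⟩ := of_decide_eq_true hc
    obtain ⟨i, hi⟩ := hα c' hc'
    refine ⟨i, ?_⟩
    have h : ∃ w, e w = e (c' i).1 := ⟨_, rfl⟩
    simp only [dif_pos h]
    rw [e.injective h.choose_spec]
    exact hi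

theorem form_bit {n : ℕ} (e : Var k μ N q ↪ Fin n) (hq : 2 ≤ q) (h0 h1 : Fin k)
    (e0 : (h0 : ℕ) = 0) (e1 : (h1 : ℕ) = 1) (c : Clause k n) :
    (∃ b, ∀ y, form e h0 h1 y c = b) ∨
      ∃ ι l b, ∀ y : (Fin k → Fin μ) → Fin N → Bool, form e h0 h1 y c = xor (y ι l) b := by
  classical
  have hinj : ∀ c c' : Fin k → Var k μ N q × Bool,
      (fun i => (e (c i).1, (c i).2)) = (fun i => (e (c' i).1, (c' i).2)) → c = c' := by
    intro c c' h
    funext i
    have h2 := congrFun h i
    simp only [Prod.mk.injEq] at h2
    exact Prod.ext (e.injective h2.1) h2.2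
  by_cases hF : ∃ c', IsFixed c' ∧ c = fun i => (e (c' i).1, (c' i).2)
  · left
    obtain ⟨c', h1', h2'⟩ := hF
    exact ⟨true, fun y => decide_eq_true ⟨c', Or.inl h1', h2'⟩⟩
  · by_cases hR : ∃ ι l r b, c = fun i => (e (rowCl ι h0 h1 l r b i).1, (rowCl (q := q) ι h0 h1 l r b i).2)
    · right
      obtain ⟨ι, l, r, b, rfl⟩ := hR
      refine ⟨ι, l, !b, fun y => ?_⟩
      unfold form
      have key : (∃ c', InForm h0 h1 y c' ∧ (fun i => (e (rowCl ι h0 h1 l r b i).1,
          (rowCl (q := q) ι h0 h1 l r b i).2)) = fun i => (e (c' i).1, (c' i).2)) ↔ y ι l = b := by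
        constructor
        · rintro ⟨c', (h | ⟨ι', l', r', rfl⟩), h2⟩
          · exact absurd ⟨c', h, h2⟩ hF
          · have h3 := rowCl_inj hq h0 h1 e0 e1 (hinj _ _ h2)
            obtain ⟨rfl, rfl, rfl, h4⟩ := h3
            exact h4.symm
        · intro h
          exact ⟨_, Or.inr ⟨ι, l, r, rfl⟩, by rw [h]⟩
      by_cases hy : y ι l = b
      · rw [decide_eq_true (key.2 hy), hy]
        cases b <;> rfl
      · rw [decide_eq_false fun h => hy (key.1 h)]
        revert hy
        generalize y ι l = z
        cases z <;> cases b <;> simp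
    · left
      refine ⟨false, fun y => decide_eq_false ?_⟩
      rintro ⟨c', (h | ⟨ι', l', r', rfl⟩), h2⟩
      · exact hF ⟨c', h, h2⟩
      · exact hR ⟨_, _, _, _, h2⟩

end Pool.Agent.W897.MA
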